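import Mathlib

/-!
# PROJECT HC+, part 3, G1: the dichotomy for `2 × 2` matrices over a number field (helper81)

`J_s`, `s : F → ℝ`, real `2 × 2` matrices with square `-1`. Either every `ℚ`-Lie algebra `h` of
traceless matrices over `F` with `J` in its real span has for every `s` an element which does not
commute with `J_s`, or there is a matrix `X` over `F` with trace `0`, totally negative square,
which commutes with `J` (complex multiplication).
-/

set_option autoImplicit false

noncomputable section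

namespace HC

namespace DichAux

open Matrix

/-- Commuting traceless matrices are proportional. -/
lemma par {K : Type*} [Field K] (h2 : (2 : K) ≠ 0) {A B : Matrix (Fin 2) (Fin 2) K}
    (hA : A.trace = 0) (hB : B.trace = 0) (hB0 : B ≠ 0) (hc : A * B = B * A) :
    ∃ μ : K, A = μ • B := by
  rw [Matrix.trace_fin_two] at hA hB
  have h01 := congrFun (congrFun hc 0) 1
  have h10 := congrFun (congrFun hc 1) 0
  have h00 := congrFun (congrFun hc 0) 0
  simp only [Matrix.mul_apply, Fin.sum_univ_two] at h01 h10 h00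
  have hA1 : A 1 1 = -A 0 0 := by linear_combination hA
  have hB1 : B 1 1 = -B 0 0 := by linear_combination hB
  rw [hA1, hB1] at h01 h10
  have e1 : A 0 0 * B 0 1 = B 0 0 * A 0 1 := by
    apply mul_left_cancel₀ h2
    linear_combination h01
  have e2 : A 1 0 * B 0 0 = B 1 0 * A 0 0 := by
    apply mul_left_cancel₀ h2
    linear_combination h10
  have e3 : A 0 1 * B 1 0 = B 0 1 * A 1 0 := by linear_combination h00
  have hext : ∀ μ : K, A 0 0 = μ * B 0 0 → A 0 1 = μ * B 0 1 → A 1 0 = μ * B 1 0 → A = μ • B := by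
    intro μ h1 h2 h3
    ext i j
    rw [Matrix.smul_apply, smul_eq_mul]
    fin_cases i <;> fin_cases j
    · exact h1
    · exact h2
    · exact h3
    · show A 1 1 = μ * B 1 1
      rw [hA1, hB1, h1]
      ring
  by_cases h1 : B 0 0 = 0
  · by_cases h3 : B 0 1 = 0
    · have h4 : B 1 0 ≠ 0 := by
        intro h4
        apply hB0
        ext i j
        fin_cases i <;> fin_cases j
        · exact h1
        · exact h3
        · exact h4
        · show B 1 1 = 0
          rw [hB1, h1, neg_zero]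
      refine ⟨A 1 0 / B 1 0, hext _ ?_ ?_ ?_⟩
      · field_simp
        linear_combination -e2
      · field_simp
        linear_combination e3
      · field_simp
    · refine ⟨A 0 1 / B 0 1, hext _ ?_ ?_ ?_⟩
      · field_simp
        linear_combination e1
      · field_simp
      · field_simp
        linear_combination -e3
  · refine ⟨A 0 0 / B 0 0, hext _ ?_ ?_ ?_⟩
    · field_simp
    · field_simp
      linear_combination -e1
    · field_simp
      linear_combination e2

lemma trace_zero {J : Matrix (Fin 2) (Fin 2) ℝ} (hJ : J * J = -1) : J.trace = 0 := by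
  rw [Matrix.trace_fin_two]
  have h00 := congrFun (congrFun hJ 0) 0
  have h01 := congrFun (congrFun hJ 0) 1
  have h10 := congrFun (congrFun hJ 1) 0
  simp only [Matrix.mul_apply, Fin.sum_univ_two, Matrix.neg_apply, Matrix.one_apply_eq] at h00
  simp only [Matrix.mul_apply, Fin.sum_univ_two, Matrix.neg_apply] at h01 h10
  rw [Matrix.one_apply_ne (by decide), neg_zero] at h01 h10
  by_contra hne
  have e1 : J 0 1 = 0 := by
    have : J 0 1 * (J 0 0 + J 1 1) = 0 := by linear_combination h01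
    exact (mul_eq_zero.1 this).resolve_right hne
  rw [e1, zero_mul, add_zero] at h00
  nlinarith [mul_self_nonneg (J 0 0)]

lemma sq_traceless {K : Type*} [Field K] {X : Matrix (Fin 2) (Fin 2) K} (hX : X.trace = 0) :
    X * X = (X 0 0 * X 0 0 + X 0 1 * X 1 0) • (1 : Matrix (Fin 2) (Fin 2) K) := by
  rw [Matrix.trace_fin_two] at hX
  have h1 : X 1 1 = -X 0 0 := by linear_combination hX
  ext i j
  rw [Matrix.smul_apply, smul_eq_mul, Matrix.mul_apply, Fin.sum_univ_two]
  fin_cases i <;> fin_cases j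
  · show X 0 0 * X 0 0 + X 0 1 * X 1 0 = _ * (1 : Matrix (Fin 2) (Fin 2) K) 0 0
    rw [Matrix.one_apply_eq, mul_one]
  · show X 0 0 * X 0 1 + X 0 1 * X 1 1 = _ * (1 : Matrix (Fin 2) (Fin 2) K) 0 1
    rw [Matrix.one_apply_ne (by decide), mul_zero, h1]
    ring
  · show X 1 0 * X 0 0 + X 1 1 * X 1 0 = _ * (1 : Matrix (Fin 2) (Fin 2) K) 1 0
    rw [Matrix.one_apply_ne (by decide), mul_zero, h1]
    ring
  · show X 1 0 * X 0 1 + X 1 1 * X 1 1 = _ * (1 : Matrix (Fin 2) (Fin 2) K) 1 1
    rw [Matrix.one_apply_eq, mul_one, h1]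
    ring

lemma map_mul' {F : Type} [Field F] (s : F →+* ℝ) (X Y : Matrix (Fin 2) (Fin 2) F) :
    (X * Y).map s = X.map s * Y.map s := Matrix.map_mul

lemma map_inj {F : Type} [Field F] (s : F →+* ℝ) {X Y : Matrix (Fin 2) (Fin 2) F}
    (h : X.map s = Y.map s) : X = Y := by
  ext i j
  exact s.injective (congrFun (congrFun h i) j)

end DichAux

open DichAux in
/-- The dichotomy. -/
theorem dich (F : Type) [Field F] [NumberField F]
    (J : (F →+* ℝ) → Matrix (Fin 2) (Fin 2) ℝ) (s0 : F →+* ℝ) (hJ : ∀ s, J s * J s = -1) :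
    (∀ h : Submodule ℚ (Matrix (Fin 2) (Fin 2) F), (∀ X ∈ h, X.trace = 0) →
      (∀ X ∈ h, ∀ Y ∈ h, X * Y - Y * X ∈ h) →
      J ∈ Submodule.span ℝ ((fun (X : Matrix (Fin 2) (Fin 2) F) (s : F →+* ℝ) => X.map s) ''
        (h : Set (Matrix (Fin 2) (Fin 2) F))) →
      ∀ s : F →+* ℝ, ∃ X ∈ h, X.map s * J s ≠ J s * X.map s) ∨
    ∃ X : Matrix (Fin 2) (Fin 2) F, X.trace = 0 ∧
      (∃ x : F, X * X = x • 1 ∧ ∀ s : F →+* ℝ, s x < 0) ∧
      ∀ s : F →+* ℝ, X.map s * J s = J s * X.map s := by
  by_contra hcon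
  push Not at hcon
  obtain ⟨⟨h, htr, -, hspan, s1, hcomm⟩, hno⟩ := hcon
  have hJne : ∀ s, J s ≠ 0 := by
    intro s h0
    have h1 := hJ s
    rw [h0, mul_zero] at h1
    have h2 := congrFun (congrFun h1 0) 0
    rw [Matrix.zero_apply, Matrix.neg_apply, Matrix.one_apply_eq] at h2
    norm_num at h2
  have htrm : ∀ (s : F →+* ℝ) (X : Matrix (Fin 2) (Fin 2) F), X.trace = 0 →
      (X.map s).trace = 0 := by
    intro s X hX
    rw [Matrix.trace_fin_two] at hX ⊢
    rw [Matrix.map_apply, Matrix.map_apply, ← map_add, hX, map_zero]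
  -- the elements of `h` commute
  have hab : ∀ X ∈ h, ∀ Y ∈ h, X * Y = Y * X := by
    intro X hX Y hY
    obtain ⟨a, ha⟩ := par two_ne_zero (htrm s1 X (htr X hX)) (trace_zero (hJ s1)) (hJne s1)
      (hcomm X hX)
    obtain ⟨b, hb⟩ := par two_ne_zero (htrm s1 Y (htr Y hY)) (trace_zero (hJ s1)) (hJne s1)
      (hcomm Y hY)
    apply map_inj s1
    rw [map_mul', map_mul', ha, hb, Matrix.smul_mul, Matrix.mul_smul, Matrix.smul_mul,
      Matrix.mul_smul, smul_comm]
  -- a nonzero element
  obtain ⟨X, hX, hX0⟩ : ∃ X ∈ h, X ≠ 0 := by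
    by_contra hall
    push Not at hall
    have h1 : J = 0 := by
      have h2 : Submodule.span ℝ ((fun (X : Matrix (Fin 2) (Fin 2) F) (s : F →+* ℝ) => X.map s) ''
          (h : Set (Matrix (Fin 2) (Fin 2) F))) ≤ ⊥ := by
        refine Submodule.span_le.2 ?_
        rintro _ ⟨X, hX, rfl⟩
        show (fun s : F →+* ℝ => X.map s) ∈ (⊥ : Submodule ℝ _)
        rw [Submodule.mem_bot, hall X hX]
        funext s
        ext i j
        simp
      exact (Submodule.mem_bot ℝ).1 (h2 hspan)
    exact hJne s0 (congrFun h1 s0)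
  have hXtr := htr X hX
  -- `J` is proportional to `X`
  have hprop : ∀ s, ∃ l : ℝ, J s = l • X.map s := by
    intro s
    have h2 : Submodule.span ℝ ((fun (X : Matrix (Fin 2) (Fin 2) F) (s : F →+* ℝ) => X.map s) ''
        (h : Set (Matrix (Fin 2) (Fin 2) F))) ≤
        (Submodule.span ℝ {X.map s}).comap (LinearMap.proj (R := ℝ) (ι := F →+* ℝ)
          (φ := fun _ => Matrix (Fin 2) (Fin 2) ℝ) s) := by
      refine Submodule.span_le.2 ?_
      rintro _ ⟨Y, hY, rfl⟩
      show Y.map s ∈ Submodule.span ℝ {X.map s}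
      obtain ⟨μ, hμ⟩ := par two_ne_zero (htr Y hY) hXtr hX0 (hab Y hY X hX)
      rw [Submodule.mem_span_singleton]
      refine ⟨s μ, ?_⟩
      ext i j
      rw [hμ]
      simp
    obtain ⟨l, hl⟩ := Submodule.mem_span_singleton.1 (h2 hspan)
    exact ⟨l, hl.symm⟩
  obtain ⟨s, hs⟩ := hno X hXtr ⟨X 0 0 * X 0 0 + X 0 1 * X 1 0, sq_traceless hXtr, fun s => by
    obtain ⟨l, hl⟩ := hprop s
    have h1 := hJ s
    rw [hl, Matrix.smul_mul, Matrix.mul_smul, ← map_mul', sq_traceless hXtr] at h1
    have h2 := congrFun (congrFun h1 0) 0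
    rw [Matrix.smul_apply, Matrix.smul_apply, Matrix.map_apply, Matrix.smul_apply,
      Matrix.neg_apply, Matrix.one_apply_eq, Matrix.one_apply_eq, smul_eq_mul, smul_eq_mul,
      smul_eq_mul, mul_one] at h2
    by_contra hge
    have h3 := mul_nonneg (mul_self_nonneg l) (not_lt.1 hge)
    linarith⟩
  obtain ⟨l, hl⟩ := hprop s
  exact hs (by rw [hl, Matrix.smul_mul, Matrix.mul_smul])

end HC
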