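import Pool.Agent.Lib.HC.L.G1.Sp
import Pool.Agent.Lib.HC.L.G1.Dich
import Pool.Agent.Lib.HC.L.E.Det
import Pool.Agent.Lib.HC.L.E.RMc
import Pool.Agent.Lib.HC.L.E.Spec

/-!
# PROJECT HC+, part 3, G1 (helper6): real multiplication, not CM
-/

set_option autoImplicit false

noncomputable section

namespace HC
namespace G1

open ComplexConjugate

/-- The coordinates (helper28). -/
def S_RMc : Prop :=
  ∀ (B : AV) (F : Type) [Field F] [NumberField F] [NumberField.IsTotallyReal F]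
    (i : F →+* Module.End ℂ B.V), Module.finrank ℚ F = Module.finrank ℂ B.V →
    (∀ x, RatEnd B ((i x).restrictScalars ℝ)) →
    ∃ (ψ : B.V ≃ₗ[ℂ] ((F →+* ℝ) → ℂ)) (t : (F →+* ℝ) → ℂ), (∀ s, (t s).im ≠ 0) ∧
      (∀ x v s, ψ (i x v) s = ((s x : ℝ) : ℂ) * ψ v s) ∧
      (∀ v ∈ B.L, ∃ x y : F, ∀ s, ψ v s = ((s x : ℝ) : ℂ) + ((s y : ℝ) : ℂ) * t s) ∧
      (∀ x y : F, ∀ v, (∀ s, ψ v s = ((s x : ℝ) : ℂ) + ((s y : ℝ) : ℂ) * t s) →
        ∃ N : ℕ, N ≠ 0 ∧ N • v ∈ B.L)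

/-- The alternative (helper81). -/
def S_Dich : Prop :=
  ∀ (F : Type) [Field F] [NumberField F] (J : (F →+* ℝ) → M2 ℝ), Nonempty (F →+* ℝ) →
    (∀ s, J s * J s = -1) →
    (∀ h : Submodule ℚ (M2 F), (∀ X ∈ h, X.trace = 0) → (∀ X ∈ h, ∀ Y ∈ h, X * Y - Y * X ∈ h) →
      J ∈ Submodule.span ℝ ((fun (X : M2 F) (s : F →+* ℝ) => X.map s) '' (h : Set (M2 F))) →
      ∀ s : F →+* ℝ, ∃ X ∈ h, X.map s * J s ≠ J s * X.map s) ∨
    ∃ X : M2 F, X.trace = 0 ∧ (∃ x : F, X * X = x • (1 : M2 F) ∧ ∀ s : F →+* ℝ, s x < 0) ∧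
      ∀ s : F →+* ℝ, X.map s * J s = J s * X.map s

theorem rat_act {B : AV} {F : Type} [Field F] {ψ : B.V ≃ₗ[ℂ] ((F →+* ℝ) → ℂ)}
    {t : (F →+* ℝ) → ℂ} (ht : ∀ s, (t s).im ≠ 0)
    (h1 : ∀ v ∈ B.L, ∃ x y : F, ∀ s, ψ v s = ((s x : ℝ) : ℂ) + ((s y : ℝ) : ℂ) * t s)
    (h2 : ∀ x y : F, ∀ v, (∀ s, ψ v s = ((s x : ℝ) : ℂ) + ((s y : ℝ) : ℂ) * t s) →
        ∃ N : ℕ, N ≠ 0 ∧ N • v ∈ B.L) (Y : M2 F) : RatEnd B (act ψ t (rl Y)) := by
  intro v hv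
  obtain ⟨x, y, hxy⟩ := h1 v hv
  refine h2 (Y 0 0 * x + Y 0 1 * y) (Y 1 0 * x + Y 1 1 * y) _ fun s => ?_
  rw [act_apply, hxy, rmap_xy (ht s)]
  simp only [map_add, map_mul]
  rfl

/-- Matrices commuting with `jm t` are complex linear. -/
theorem rmap_I {t : ℂ} (ht : t.im ≠ 0) {M : M2 ℝ} (h : M * jm t = jm t * M) (z : ℂ) :
    rmap t M (Complex.I * z) = Complex.I * rmap t M z := by
  rw [← rmap_jm ht z, ← rmap_jm ht (rmap t M z), ← rmap_mul ht, ← rmap_mul ht, h]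

theorem comm_of_rmap_I {t : ℂ} (ht : t.im ≠ 0) {M : M2 ℝ}
    (h : ∀ z, rmap t M (Complex.I * z) = Complex.I * rmap t M z) : M * jm t = jm t * M := by
  rw [← sub_eq_zero]
  refine rmap_inj ht fun z => ?_
  rw [sub_eq_add_neg, ← neg_one_smul ℝ (jm t * M), rmap_Madd, rmap_Msmul, rmap_mul ht, rmap_mul ht,
    rmap_jm ht, rmap_jm ht, h z]
  simp

/-- **CM detection in coordinates.** -/
theorem isCM_of_coord (B : AV) (F : Type) [Field F] [NumberField F] [NumberField.IsTotallyReal F]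
    (i : F →+* Module.End ℂ B.V) (hF : Module.finrank ℚ F = Module.finrank ℂ B.V)
    (hi : ∀ x, RatEnd B ((i x).restrictScalars ℝ))
    (ψ : B.V ≃ₗ[ℂ] ((F →+* ℝ) → ℂ)) (t : (F →+* ℝ) → ℂ) (ht : ∀ s, (t s).im ≠ 0)
    (h0 : ∀ x v s, ψ (i x v) s = ((s x : ℝ) : ℂ) * ψ v s)
    (h1 : ∀ v ∈ B.L, ∃ x y : F, ∀ s, ψ v s = ((s x : ℝ) : ℂ) + ((s y : ℝ) : ℂ) * t s)
    (h2 : ∀ x y : F, ∀ v, (∀ s, ψ v s = ((s x : ℝ) : ℂ) + ((s y : ℝ) : ℂ) * t s) →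
        ∃ N : ℕ, N ≠ 0 ∧ N • v ∈ B.L)
    (X : M2 F) (x : F) (hX : X * X = x • (1 : M2 F)) (hx : ∀ s : F →+* ℝ, s x < 0)
    (hc : ∀ s : F →+* ℝ, X.map s * jm (t s) = jm (t s) * X.map s) : IsCM B := by
  have hlin : ∀ (r : ℂ) (v : B.V), act ψ t (rl X) (r • v) = r • act ψ t (rl X) v := by
    intro r v
    have hI : act ψ t (rl X) (Complex.I • v) = Complex.I • act ψ t (rl X) v := by
      apply ψ.injective
      funext s
      rw [act_apply, map_smul, map_smul, Pi.smul_apply, Pi.smul_apply, smul_eq_mul, smul_eq_mul,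
        act_apply]
      exact rmap_I (ht s) (hc s) _
    have e : r • v = r.re • v + r.im • (Complex.I • v) := by
      conv_lhs => rw [← Complex.re_add_im r]
      rw [add_smul, mul_smul]
      rfl
    have e' : r • act ψ t (rl X) v =
        r.re • act ψ t (rl X) v + r.im • (Complex.I • act ψ t (rl X) v) := by
      conv_lhs => rw [← Complex.re_add_im r]
      rw [add_smul, mul_smul]
      rfl
    rw [e, map_add, map_smul, map_smul, hI, e']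
  let X' : Module.End ℂ B.V :=
    { toFun := act ψ t (rl X)
      map_add' := map_add _
      map_smul' := fun r v => hlin r v }
  have hX' : ∀ v, X' v = act ψ t (rl X) v := fun _ => rfl
  refine isCM_detF B F i hF hi X' (rat_act ht h1 h2 X) (fun y => ?_) x ?_ hx
  · ext v
    rw [Module.End.mul_apply, Module.End.mul_apply, hX', hX']
    apply ψ.injective
    funext s
    rw [act_apply, h0, h0, act_apply]
    have := rmap_smul (t s) (rl X s) (s y) (ψ v s)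
    rwa [Complex.real_smul, Complex.real_smul] at this
  · ext v
    rw [Module.End.mul_apply, hX', hX']
    apply ψ.injective
    funext s
    rw [act_apply, act_apply, h0, ← rmap_mul (ht s)]
    have e : rl X s * rl X s = (s x) • (1 : M2 ℝ) := by
      have := congrFun (rl_mul X X) s
      rw [Pi.mul_apply] at this
      rw [← this, hX]
      ext a b
      show s (x * (1 : M2 F) a b) = s x * (1 : M2 ℝ) a b
      rw [map_mul]
      congr 1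
      fin_cases a <;> fin_cases b <;> simp
    rw [e, rmap_Msmul]
    obtain ⟨a, b, hab⟩ := exists_xy (ht s) (ψ v s)
    rw [hab, rmap_xy (ht s)]
    simp
    ring

/-- **G1.** -/
theorem g1 (hR : S_RMc) (hD : S_Dich) (B : AV) (hB : IsRM B) (hn : ¬ IsCM B) :
    ∃ (I : Type) (_ : Fintype I) (ψ : B.V ≃ₗ[ℂ] (I → ℂ)) (S : Set (Module.End ℝ B.V)),
      (∀ X ∈ S, RatEnd B X) ∧
      (∀ X ∈ S, ∀ k, ∃ (α : ℝ) (β : ℂ), ∀ v,
        ψ (X v) k = (α : ℂ) * Complex.I * ψ v k + β * conj (ψ v k)) ∧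
      (0 ∈ S) ∧ (∀ X ∈ S, ∀ Y ∈ S, X + Y ∈ S) ∧ (∀ X ∈ S, ∀ q : ℚ, (q : ℝ) • X ∈ S) ∧
      (∀ X ∈ S, ∀ Y ∈ S, X * Y - Y * X ∈ S) ∧ mulI B ∈ Submodule.span ℝ S ∧
      ∀ h ⊆ S, (0 ∈ h) → (∀ X ∈ h, ∀ Y ∈ h, X + Y ∈ h) → (∀ X ∈ h, ∀ q : ℚ, (q : ℝ) • X ∈ h) →
        (∀ X ∈ h, ∀ Y ∈ h, X * Y - Y * X ∈ h) → mulI B ∈ Submodule.span ℝ h →
        ∀ k, ∃ X ∈ h, ∃ v, ψ (X (Complex.I • v)) k ≠ Complex.I * ψ (X v) k := by
  obtain ⟨F, _, _, _, i, hF, hi⟩ := hB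
  obtain ⟨ψ, t, ht, h0, h1, h2⟩ := hR B F i hF hi
  have hne : Nonempty (F →+* ℝ) := by
    obtain ⟨φ⟩ := (inferInstance : Nonempty (F →+* ℂ))
    obtain ⟨σ, -⟩ := real_emb φ
    exact ⟨σ⟩
  have hnc : ∀ h : Submodule ℚ (M2 F), (∀ X ∈ h, X.trace = 0) →
      (∀ X ∈ h, ∀ Y ∈ h, X * Y - Y * X ∈ h) →
      (fun s => jm (t s)) ∈ Submodule.span ℝ
        ((fun (X : M2 F) (s : F →+* ℝ) => X.map s) '' (h : Set (M2 F))) →
      ∀ s : F →+* ℝ, ∃ X ∈ h, X.map s * jm (t s) ≠ jm (t s) * X.map s := by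
    rcases hD F (fun s => jm (t s)) hne (fun s => jm_sq (ht s)) with h | ⟨X, _, ⟨x, hx, hx'⟩, hX⟩
    · exact h
    · exact absurd (isCM_of_coord B F i hF hi ψ t ht h0 h1 h2 X x hx hx' hX) hn
  refine ⟨F →+* ℝ, inferInstance, ψ, {Z | ∃ Y : M2 F, Y.trace = 0 ∧ Z = act ψ t (rl Y)}, ?_, ?_,
    ?_, ?_, ?_, ?_, ?_, ?_⟩
  · rintro _ ⟨Y, _, rfl⟩
    exact rat_act ht h1 h2 Y
  · rintro _ ⟨Y, hY, rfl⟩ k
    refine ⟨alf (t k) (rl Y k), bef (t k) (rl Y k), fun v => ?_⟩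
    rw [act_apply, rmap_form (ht k) (rl_trace hY k)]
  · exact ⟨0, by simp, by rw [rl_zero, map_zero]⟩
  · rintro _ ⟨Y, hY, rfl⟩ _ ⟨Z, hZ, rfl⟩
    exact ⟨Y + Z, by rw [Matrix.trace_add, hY, hZ, add_zero], by rw [rl_add, map_add]⟩
  · rintro _ ⟨Y, hY, rfl⟩ q
    exact ⟨q • Y, by rw [Matrix.trace_smul, hY, smul_zero], by rw [rl_qsmul, map_smul]⟩
  · rintro _ ⟨Y, hY, rfl⟩ _ ⟨Z, hZ, rfl⟩
    refine ⟨Y * Z - Z * Y, by rw [Matrix.trace_sub, Matrix.trace_mul_comm, sub_self], ?_⟩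
    rw [rl_sub, rl_mul, rl_mul, act_comm ψ ht]
  · rw [← act_jm_mulI ψ ht]
    have h3 := span_sl F (fun s => jm (t s)) fun s => jm_trace _
    have h4 := Submodule.mem_map_of_mem (f := act ψ t) h3
    rw [Submodule.map_span] at h4
    refine Submodule.span_mono ?_ h4
    rintro _ ⟨_, ⟨Y, hY, rfl⟩, rfl⟩
    exact ⟨Y, hY, rfl⟩
  · intro h hS hz hadd hq hcomm hJ k
    let h' : Submodule ℚ (M2 F) :=
      { carrier := {Y | Y.trace = 0 ∧ act ψ t (rl Y) ∈ h}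
        zero_mem' := ⟨by simp, by rw [rl_zero, map_zero]; exact hz⟩
        add_mem' := by
          rintro Y Z ⟨hY, hY'⟩ ⟨hZ, hZ'⟩
          exact ⟨by rw [Matrix.trace_add, hY, hZ, add_zero],
            by rw [rl_add, map_add]; exact hadd _ hY' _ hZ'⟩
        smul_mem' := by
          rintro q Y ⟨hY, hY'⟩
          exact ⟨by rw [Matrix.trace_smul, hY, smul_zero],
            by rw [rl_qsmul, map_smul]; exact hq _ hY' q⟩ }
    have hmem : ∀ Y, Y ∈ h' ↔ Y.trace = 0 ∧ act ψ t (rl Y) ∈ h := fun _ => Iff.rfl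
    obtain ⟨X, hX, hXk⟩ := hnc h' (fun X hX => hX.1) (fun X hX Y hY => by
      refine ⟨by rw [Matrix.trace_sub, Matrix.trace_mul_comm, sub_self], ?_⟩
      rw [rl_sub, rl_mul, rl_mul, act_comm ψ ht]
      exact hcomm _ hX.2 _ hY.2) (by
      rw [← act_jm_mulI ψ ht] at hJ
      have e : h = (act ψ t) '' ((fun (X : M2 F) (s : F →+* ℝ) => X.map s) '' (h' : Set (M2 F))) := by
        ext Z
        constructor
        · intro hZ
          obtain ⟨Y, hY, rfl⟩ := hS hZ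
          exact ⟨_, ⟨Y, ⟨hY, hZ⟩, rfl⟩, rfl⟩
        · rintro ⟨_, ⟨Y, hY, rfl⟩, rfl⟩
          exact hY.2
      rw [e, ← Submodule.map_span] at hJ
      obtain ⟨W, hW, hW'⟩ := hJ
      rwa [act_inj ψ ht hW'] at hW) k
    refine ⟨_, hX.2, ?_⟩
    by_contra hcon
    push_neg at hcon
    apply hXk
    refine comm_of_rmap_I (ht k) fun z => ?_
    have h5 := hcon (ψ.symm (fun _ => z))
    rw [act_apply, act_apply, map_smul, LinearEquiv.apply_symm_apply, Pi.smul_apply,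
      smul_eq_mul] at h5
    exact h5

theorem pDich : S_Dich := by
  intro F _ _ J ⟨s0⟩ hJ
  exact dich F J s0 hJ

/-- **G1** in the form of the specification. -/
theorem g1Good (hR : S_RMc) (B : AV) (hB : IsRM B) (hn : ¬ IsCM B) : E.Good B := by
  obtain ⟨I, hI, ψ, S, h1, h2, h3, h4, h5, h6, h7, h8⟩ := g1 hR pDich B hB hn
  have hop : ∀ X ∈ S, ∃ α β, E.IsOp ψ X α β := by
    intro X hX
    choose α β h using h2 X hX
    exact ⟨α, β, fun v i => h i v⟩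
  refine ⟨I, hI, ⟨⟨ψ, S, ⟨⟨h3, h4, fun q X hX => h5 X hX q⟩, h6⟩, h1, hop, h7, ?_⟩⟩⟩
  intro h hS hh hJ i
  obtain ⟨X, hX, v, hv⟩ := h8 h hS hh.zero hh.add (fun X hX q => hh.smul q X hX) hh.br hJ i
  obtain ⟨α, β, hαβ⟩ := hop X (hS hX)
  refine ⟨X, hX, α, β, hαβ, fun h0 => hv ?_⟩
  rw [hαβ, hαβ, h0, map_smul, Pi.smul_apply, smul_eq_mul]
  ring

/-- **G1**, unconditional. -/
theorem tG1 : ∀ B : AV, IsRM B → ¬ IsCM B → E.Good B :=
  g1Good fun B F _ _ _ i hF hi => HC.tRMc B F i hF hi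

end G1
end HC
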