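import Pool.Agent.Lib.HC.L.Defs

/-!
# PROJECT HC+, part 3, G1 (helper6): real `2 × 2` matrices acting on `ℂ^I`

`V = ℂ^I` (by `ψ`); `X : I → M2 ℝ` acts on the line `k` with matrix `X k` in the real basis
`1, t k` of `ℂ`. Traceless matrices: `z ↦ α i z + β z̄`, `α` real (`alf`, `bef`). `jm t`: `i`.
-/

set_option autoImplicit false

noncomputable section

namespace HC
namespace G1

open scoped ComplexConjugate

/-- 2 × 2 matrices. -/
abbrev M2 (K : Type) : Type := Matrix (Fin 2) (Fin 2) K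

/-- Multiplication by `i` on `ℂ = ℝ + ℝ t`, in the basis `1, t`. -/
def jm (t : ℂ) : M2 ℝ :=
  !![-(t.re / t.im), -((t.re ^ 2 + t.im ^ 2) / t.im); 1 / t.im, t.re / t.im]

theorem jm_trace (t : ℂ) : (jm t).trace = 0 := by
  simp [jm, Matrix.trace, Fin.sum_univ_two]

theorem jm_sq {t : ℂ} (ht : t.im ≠ 0) : jm t * jm t = -1 := by
  ext i j
  fin_cases i <;> fin_cases j <;>
    simp [jm, Matrix.mul_apply, Fin.sum_univ_two] <;> field_simp <;> ring

/-- The real matrix of `z ↦ (M 0 0 x + M 0 1 y) + (M 1 0 x + M 1 1 y) t`, `z = x + y t`. -/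
def rmap (t : ℂ) (M : M2 ℝ) (z : ℂ) : ℂ :=
  ((M 0 0 * (z.re - z.im / t.im * t.re) + M 0 1 * (z.im / t.im) : ℝ) : ℂ) +
    ((M 1 0 * (z.re - z.im / t.im * t.re) + M 1 1 * (z.im / t.im) : ℝ) : ℂ) * t

theorem rmap_xy {t : ℂ} (ht : t.im ≠ 0) (M : M2 ℝ) (x y : ℝ) :
    rmap t M ((x : ℂ) + (y : ℂ) * t) =
      ((M 0 0 * x + M 0 1 * y : ℝ) : ℂ) + ((M 1 0 * x + M 1 1 * y : ℝ) : ℂ) * t := by
  have h1 : ((x : ℂ) + (y : ℂ) * t).im / t.im = y := by
    simp only [Complex.add_im, Complex.ofReal_im, Complex.im_ofReal_mul]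
    field_simp
    ring
  have h2 : ((x : ℂ) + (y : ℂ) * t).re - y * t.re = x := by
    simp only [Complex.add_re, Complex.ofReal_re, Complex.re_ofReal_mul]
    ring
  unfold rmap
  rw [h1, h2]

theorem exists_xy {t : ℂ} (ht : t.im ≠ 0) (z : ℂ) : ∃ x y : ℝ, z = (x : ℂ) + (y : ℂ) * t := by
  refine ⟨z.re - z.im / t.im * t.re, z.im / t.im, ?_⟩
  apply Complex.ext
  · simp only [Complex.add_re, Complex.ofReal_re, Complex.re_ofReal_mul]
    ring
  · simp only [Complex.add_im, Complex.ofReal_im, Complex.im_ofReal_mul]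
    field_simp
    ring

theorem xy_inj {t : ℂ} (ht : t.im ≠ 0) {x y x' y' : ℝ}
    (h : (x : ℂ) + (y : ℂ) * t = (x' : ℂ) + (y' : ℂ) * t) : x = x' ∧ y = y' := by
  have h1 := congrArg Complex.im h
  simp only [Complex.add_im, Complex.ofReal_im, Complex.im_ofReal_mul, zero_add] at h1
  have h2 : y = y' := mul_right_cancel₀ ht h1
  subst h2
  have h3 := congrArg Complex.re h
  simp only [Complex.add_re, Complex.ofReal_re, Complex.re_ofReal_mul] at h3
  exact ⟨by linarith, rfl⟩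

theorem rmap_add (t : ℂ) (M : M2 ℝ) (z w : ℂ) : rmap t M (z + w) = rmap t M z + rmap t M w := by
  unfold rmap
  simp only [Complex.add_re, Complex.add_im]
  push_cast
  ring

theorem rmap_smul (t : ℂ) (M : M2 ℝ) (r : ℝ) (z : ℂ) : rmap t M (r • z) = r • rmap t M z := by
  unfold rmap
  simp only [Complex.real_smul, Complex.re_ofReal_mul, Complex.im_ofReal_mul]
  push_cast
  ring

theorem rmap_Madd (t : ℂ) (M N : M2 ℝ) (z : ℂ) : rmap t (M + N) z = rmap t M z + rmap t N z := by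
  unfold rmap
  simp only [Matrix.add_apply]
  push_cast
  ring

theorem rmap_Msmul (t : ℂ) (M : M2 ℝ) (r : ℝ) (z : ℂ) : rmap t (r • M) z = r • rmap t M z := by
  unfold rmap
  simp only [Matrix.smul_apply, smul_eq_mul, Complex.real_smul]
  push_cast
  ring

theorem rmap_mul {t : ℂ} (ht : t.im ≠ 0) (M N : M2 ℝ) (z : ℂ) :
    rmap t (M * N) z = rmap t M (rmap t N z) := by
  obtain ⟨x, y, rfl⟩ := exists_xy ht z
  rw [rmap_xy ht, rmap_xy ht, rmap_xy ht]
  simp only [Matrix.mul_apply, Fin.sum_univ_two]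
  congr 1
  · congr 1
    ring
  · congr 2
    ring

theorem rmap_jm {t : ℂ} (ht : t.im ≠ 0) (z : ℂ) : rmap t (jm t) z = Complex.I * z := by
  obtain ⟨x, y, rfl⟩ := exists_xy ht z
  rw [rmap_xy ht]
  have h0 : jm t 0 0 = -(t.re / t.im) := rfl
  have h1 : jm t 0 1 = -((t.re ^ 2 + t.im ^ 2) / t.im) := rfl
  have h2 : jm t 1 0 = 1 / t.im := rfl
  have h3 : jm t 1 1 = t.re / t.im := rfl
  rw [h0, h1, h2, h3]
  apply Complex.ext
  · simp only [Complex.add_re, Complex.ofReal_re, Complex.re_ofReal_mul, Complex.mul_re,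
      Complex.I_re, Complex.I_im, Complex.add_im, Complex.ofReal_im, Complex.im_ofReal_mul]
    field_simp
    ring
  · simp only [Complex.add_im, Complex.ofReal_im, Complex.im_ofReal_mul, Complex.mul_im,
      Complex.I_re, Complex.I_im, Complex.add_re, Complex.ofReal_re, Complex.re_ofReal_mul]
    field_simp
    ring

theorem rmap_inj {t : ℂ} (ht : t.im ≠ 0) {M : M2 ℝ} (h : ∀ z, rmap t M z = 0) : M = 0 := by
  have e1 := h (((1 : ℝ) : ℂ) + ((0 : ℝ) : ℂ) * t)
  have e2 := h (((0 : ℝ) : ℂ) + ((1 : ℝ) : ℂ) * t)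
  rw [rmap_xy ht] at e1 e2
  have z0 : (0 : ℂ) = ((0 : ℝ) : ℂ) + ((0 : ℝ) : ℂ) * t := by push_cast; ring
  rw [z0] at e1 e2
  obtain ⟨a, b⟩ := xy_inj ht e1
  obtain ⟨c, d⟩ := xy_inj ht e2
  ext i j
  fin_cases i <;> fin_cases j
  · simpa using a
  · simpa using c
  · simpa using b
  · simpa using d

/-- `α`. -/
def alf (t : ℂ) (M : M2 ℝ) : ℝ :=
  (M 1 0 * (t.re ^ 2 + t.im ^ 2) + 2 * M 0 0 * t.re - M 0 1) / (2 * t.im)

/-- `β`. -/
def bef (t : ℂ) (M : M2 ℝ) : ℂ := (M 0 0 : ℂ) + (M 1 0 : ℂ) * t - (alf t M : ℂ) * Complex.I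

theorem rmap_form {t : ℂ} (ht : t.im ≠ 0) {M : M2 ℝ} (hM : M.trace = 0) (z : ℂ) :
    rmap t M z = (alf t M : ℂ) * Complex.I * z + bef t M * conj z := by
  have hM' : M 1 1 = -M 0 0 := by
    rw [Matrix.trace, Fin.sum_univ_two] at hM
    have : M 0 0 + M 1 1 = 0 := hM
    linarith
  obtain ⟨x, y, rfl⟩ := exists_xy ht z
  rw [rmap_xy ht, hM']
  unfold bef alf
  apply Complex.ext
  · simp only [Complex.add_re, Complex.ofReal_re, Complex.re_ofReal_mul, Complex.mul_re,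
      Complex.I_re, Complex.I_im, Complex.add_im, Complex.ofReal_im, Complex.im_ofReal_mul,
      Complex.sub_re, Complex.sub_im, Complex.mul_im, Complex.conj_re, Complex.conj_im]
    field_simp
    ring
  · simp only [Complex.add_im, Complex.ofReal_im, Complex.im_ofReal_mul, Complex.mul_im,
      Complex.I_re, Complex.I_im, Complex.add_re, Complex.ofReal_re, Complex.re_ofReal_mul,
      Complex.sub_re, Complex.sub_im, Complex.mul_re, Complex.conj_re, Complex.conj_im]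
    field_simp
    ring

/-- `β = 0` only for the real multiples of `jm t`. -/
theorem bef_zero {t : ℂ} (ht : t.im ≠ 0) {M : M2 ℝ} (hM : M.trace = 0) (h : bef t M = 0) :
    M = alf t M • jm t := by
  have h1 : ∀ z, rmap t (M + (-(alf t M)) • jm t) z = 0 := by
    intro z
    rw [rmap_Madd, rmap_Msmul, rmap_form ht hM, h, rmap_jm ht, Complex.real_smul]
    push_cast
    ring
  have h2 := rmap_inj ht h1
  rw [neg_smul, ← sub_eq_add_neg, sub_eq_zero] at h2
  exact h2

theorem bef_comm {t : ℂ} (ht : t.im ≠ 0) {M : M2 ℝ} (hM : M.trace = 0)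
    (h : M * jm t ≠ jm t * M) : bef t M ≠ 0 := by
  intro h0
  apply h
  rw [bef_zero ht hM h0]
  rw [Matrix.smul_mul, Matrix.mul_smul]

section

variable {I V : Type} [AddCommGroup V] [Module ℂ V]

/-- The action of tuples of real matrices. -/
def act (ψ : V ≃ₗ[ℂ] (I → ℂ)) (t : I → ℂ) : (I → M2 ℝ) →ₗ[ℝ] Module.End ℝ V where
  toFun X :=
    { toFun := fun v => ψ.symm fun k => rmap (t k) (X k) (ψ v k)
      map_add' := fun v w => by
        rw [← map_add]
        congr 1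
        funext k
        rw [map_add, Pi.add_apply, rmap_add]
        rfl
      map_smul' := fun r v => by
        have h : ∀ (v : V), ψ (r • v) = r • ψ v := fun v => map_smul (ψ.restrictScalars ℝ) r v
        have h' : ∀ (f : I → ℂ), ψ.symm (r • f) = r • ψ.symm f := fun f =>
          map_smul (ψ.restrictScalars ℝ).symm r f
        rw [RingHom.id_apply, ← h']
        congr 1
        funext k
        rw [h, Pi.smul_apply, rmap_smul]
        rfl }
  map_add' X Y := by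
    ext v
    show ψ.symm _ = ψ.symm _ + ψ.symm _
    rw [← map_add]
    congr 1
    funext k
    rw [Pi.add_apply, rmap_Madd]
    rfl
  map_smul' r X := by
    ext v
    have h' : ∀ (f : I → ℂ), ψ.symm (r • f) = r • ψ.symm f := fun f =>
      map_smul (ψ.restrictScalars ℝ).symm r f
    show ψ.symm _ = r • ψ.symm _
    rw [← h']
    congr 1
    funext k
    rw [Pi.smul_apply, rmap_Msmul]
    rfl

theorem act_apply (ψ : V ≃ₗ[ℂ] (I → ℂ)) (t : I → ℂ) (X : I → M2 ℝ) (v : V) (k : I) :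
    ψ (act ψ t X v) k = rmap (t k) (X k) (ψ v k) := by
  show ψ (ψ.symm _) k = _
  rw [LinearEquiv.apply_symm_apply]

theorem act_mul (ψ : V ≃ₗ[ℂ] (I → ℂ)) {t : I → ℂ} (ht : ∀ k, (t k).im ≠ 0) (X Y : I → M2 ℝ) :
    act ψ t (X * Y) = act ψ t X * act ψ t Y := by
  ext v
  apply ψ.injective
  funext k
  rw [Module.End.mul_apply, act_apply, act_apply, act_apply, Pi.mul_apply, rmap_mul (ht k)]

theorem act_comm (ψ : V ≃ₗ[ℂ] (I → ℂ)) {t : I → ℂ} (ht : ∀ k, (t k).im ≠ 0) (X Y : I → M2 ℝ) :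
    act ψ t (X * Y - Y * X) = act ψ t X * act ψ t Y - act ψ t Y * act ψ t X := by
  rw [map_sub, act_mul ψ ht, act_mul ψ ht]

theorem act_inj (ψ : V ≃ₗ[ℂ] (I → ℂ)) {t : I → ℂ} (ht : ∀ k, (t k).im ≠ 0) :
    Function.Injective (act ψ t) := by
  rw [injective_iff_map_eq_zero]
  intro X h
  funext k
  classical
  refine rmap_inj (ht k) fun z => ?_
  have h1 := act_apply ψ t X (ψ.symm (Pi.single k z)) k
  rw [h, LinearMap.zero_apply, map_zero, LinearEquiv.apply_symm_apply, Pi.single_eq_same] at h1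
  exact h1.symm

theorem act_jm (ψ : V ≃ₗ[ℂ] (I → ℂ)) {t : I → ℂ} (ht : ∀ k, (t k).im ≠ 0) (v : V) :
    act ψ t (fun k => jm (t k)) v = Complex.I • v := by
  apply ψ.injective
  funext k
  rw [act_apply, rmap_jm (ht k), map_smul]
  rfl

end

/-- The action of `i`. -/
theorem act_jm_mulI {I : Type} {B : AV} (ψ : B.V ≃ₗ[ℂ] (I → ℂ)) {t : I → ℂ}
    (ht : ∀ k, (t k).im ≠ 0) : act ψ t (fun k => jm (t k)) = mulI B := by
  ext v
  rw [act_jm ψ ht]
  rfl

end G1
end HC
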