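import Pool.Agent.Lib.HC.L.G1.Act

/-!
# PROJECT HC+, part 3, G1 (helper6): the real span of the `F`-matrices
-/

set_option autoImplicit false

noncomputable section

namespace HC
namespace G1

/-- `{(s x)_s : x ∈ F}` spans `ℝ^(F → ℝ)`. -/
theorem span_emb (F : Type) [Field F] [NumberField F] :
    Submodule.span ℝ (Set.range fun (x : F) (s : F →+* ℝ) => s x) = ⊤ := by
  classical
  by_contra hne
  obtain ⟨f, hf0, hf⟩ := Submodule.exists_le_ker_of_lt_top _ (lt_top_iff_ne_top.2 hne)
  apply hf0
  have h1 : ∀ w : (F →+* ℝ) → ℝ, f w = ∑ s, w s * f (Pi.single s 1) := by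
    intro w
    have e : w = ∑ s, w s • (Pi.single s (1 : ℝ) : (F →+* ℝ) → ℝ) := by
      funext k
      rw [Finset.sum_apply, Finset.sum_eq_single k]
      · simp
      · intro l _ hl
        simp [Pi.single_apply, hl.symm]
      · intro h
        exact absurd (Finset.mem_univ k) h
    conv_lhs => rw [e]
    rw [map_sum]
    refine Finset.sum_congr rfl fun s _ => ?_
    rw [map_smul, smul_eq_mul]
  have h2 : ∑ s : F →+* ℝ, f (Pi.single s 1) • (fun x : F => s x) = 0 := by
    funext x
    rw [Finset.sum_apply, Pi.zero_apply]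
    have h3 : f (fun s : F →+* ℝ => s x) = 0 := hf (Submodule.subset_span ⟨x, rfl⟩)
    rw [h1] at h3
    rw [← h3]
    refine Finset.sum_congr rfl fun s _ => ?_
    rw [Pi.smul_apply, smul_eq_mul]
    ring
  have hi : LinearIndependent ℝ (fun s : F →+* ℝ => (fun x : F => s x)) := by
    have h4 := linearIndependent_monoidHom F ℝ
    exact h4.comp (fun s : F →+* ℝ => (s : F →* ℝ)) (fun a b hab => by
      ext x
      exact DFunLike.congr_fun hab x)
  have h5 := Fintype.linearIndependent_iff.1 hi _ h2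
  ext s
  rw [LinearMap.comp_apply, LinearMap.single_apply, h5 s]
  simp

/-- The tuple of real matrices of a matrix over `F`. -/
def rl {F : Type} [Field F] (Y : M2 F) (s : F →+* ℝ) : M2 ℝ := Y.map s

theorem rl_add {F : Type} [Field F] (X Y : M2 F) : rl (X + Y) = rl X + rl Y := by
  funext s
  ext i j
  simp [rl]

theorem rl_sub {F : Type} [Field F] (X Y : M2 F) : rl (X - Y) = rl X - rl Y := by
  funext s
  ext i j
  simp [rl]

theorem rl_mul {F : Type} [Field F] (X Y : M2 F) : rl (X * Y) = rl X * rl Y := by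
  funext s
  show (X * Y).map s = X.map s * Y.map s
  rw [Matrix.map_mul]

theorem rl_trace {F : Type} [Field F] {X : M2 F} (h : X.trace = 0) (s : F →+* ℝ) :
    (rl X s).trace = 0 := by
  rw [Matrix.trace, Fin.sum_univ_two] at h ⊢
  show s (X 0 0) + s (X 1 1) = 0
  rw [← map_add]
  have : X 0 0 + X 1 1 = 0 := h
  rw [this, map_zero]

theorem rl_zero {F : Type} [Field F] : rl (0 : M2 F) = 0 := by
  funext s
  ext i j
  simp [rl]

theorem rl_qsmul {F : Type} [Field F] [CharZero F] (q : ℚ) (X : M2 F) :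
    rl (q • X) = (q : ℝ) • rl X := by
  funext s
  ext i j
  show s (q • X i j) = (q : ℝ) * s (X i j)
  rw [Rat.smul_def, map_mul, map_ratCast]

theorem rl_inj {F : Type} [Field F] {X Y : M2 F} (s : F →+* ℝ) (h : rl X s = rl Y s) : X = Y := by
  ext i j
  exact s.injective (congrFun (congrFun h i) j)

/-- Every tuple of traceless real matrices is a real combination of traceless `F`-matrices. -/
theorem span_sl (F : Type) [Field F] [NumberField F] (X : (F →+* ℝ) → M2 ℝ)
    (hX : ∀ s, (X s).trace = 0) :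
    X ∈ Submodule.span ℝ {Z | ∃ Y : M2 F, Y.trace = 0 ∧ Z = rl Y} := by
  have key : ∀ (N : M2 ℚ), N.trace = 0 → ∀ a : (F →+* ℝ) → ℝ,
      (fun s => a s • N.map (fun q : ℚ => (q : ℝ))) ∈
        Submodule.span ℝ {Z : (F →+* ℝ) → M2 ℝ | ∃ Y : M2 F, Y.trace = 0 ∧ Z = rl Y} := by
    intro N hN a
    have ha : a ∈ Submodule.span ℝ (Set.range fun (x : F) (s : F →+* ℝ) => s x) := by
      rw [span_emb F]
      trivial
    induction ha using Submodule.span_induction with
    | mem w hw =>
      obtain ⟨x, rfl⟩ := hw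
      refine Submodule.subset_span ⟨x • N.map (fun q : ℚ => (q : F)), ?_, ?_⟩
      · rw [Matrix.trace, Fin.sum_univ_two] at hN ⊢
        show x * ((N 0 0 : ℚ) : F) + x * ((N 1 1 : ℚ) : F) = 0
        have : N 0 0 + N 1 1 = 0 := hN
        rw [← mul_add, ← Rat.cast_add, this, Rat.cast_zero, mul_zero]
      · funext s
        ext i j
        show s x * ((N i j : ℚ) : ℝ) = s (x * ((N i j : ℚ) : F))
        rw [map_mul, map_ratCast]
    | zero =>
      have : (fun s : F →+* ℝ => (0 : (F →+* ℝ) → ℝ) s • N.map (fun q : ℚ => (q : ℝ))) = 0 := by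
        funext s
        rw [Pi.zero_apply, zero_smul]
        rfl
      rw [this]
      exact Submodule.zero_mem _
    | add u v _ _ hu hv =>
      have : (fun s : F →+* ℝ => (u + v) s • N.map (fun q : ℚ => (q : ℝ))) =
          (fun s => u s • N.map (fun q : ℚ => (q : ℝ))) +
            fun s => v s • N.map (fun q : ℚ => (q : ℝ)) := by
        funext s
        rw [Pi.add_apply, add_smul]
        rfl
      rw [this]
      exact Submodule.add_mem _ hu hv
    | smul r u _ hu =>
      have : (fun s : F →+* ℝ => (r • u) s • N.map (fun q : ℚ => (q : ℝ))) =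
          r • fun s => u s • N.map (fun q : ℚ => (q : ℝ)) := by
        funext s
        rw [Pi.smul_apply, smul_eq_mul, mul_smul]
        rfl
      rw [this]
      exact Submodule.smul_mem _ _ hu
  have e : X = (fun s => X s 0 0 • (!![1, 0; 0, -1] : M2 ℚ).map (fun q : ℚ => (q : ℝ))) +
      (fun s => X s 0 1 • (!![0, 1; 0, 0] : M2 ℚ).map (fun q : ℚ => (q : ℝ))) +
      (fun s => X s 1 0 • (!![0, 0; 1, 0] : M2 ℚ).map (fun q : ℚ => (q : ℝ))) := by
    funext s
    have h := hX s
    rw [Matrix.trace, Fin.sum_univ_two] at h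
    have h' : X s 1 1 = -X s 0 0 := by
      have : X s 0 0 + X s 1 1 = 0 := h
      linarith
    ext i j
    fin_cases i <;> fin_cases j <;> simp [h']
  rw [e]
  refine Submodule.add_mem _ (Submodule.add_mem _ (key _ ?_ _) (key _ ?_ _)) (key _ ?_ _) <;>
    simp [Matrix.trace, Fin.sum_univ_two]

end G1
end HC
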